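import Mathlib

set_option autoImplicit false

open Set Filter Topology Asymptotics

namespace Pool.Agent.Y261.FL

/-! # Differentiability of maps into products of topological vector spaces -/

section
variable {V : Type*} [NormedAddCommGroup V] [NormedSpace ℂ V]

lemma hasFDerivAt_clm_comp {G H : Type*} [AddCommGroup G] [Module ℂ G] [TopologicalSpace G]
    [AddCommGroup H] [Module ℂ H] [TopologicalSpace H] (L : G →L[ℂ] H) {f : V → G} {f' : V →L[ℂ] G}
    {z : V} (h : HasFDerivAt f f' z) : HasFDerivAt (fun z => L (f z)) (L.comp f') z := by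
  have h0 : HasFDerivAtFilter f f' (𝓝 z ×ˢ pure z) := h
  have h1 := (L.isBigOTVS_fun_comp (l := 𝓝 z ×ˢ pure z)
    (f := fun p : V × V => f p.1 - f p.2 - f' (p.1 - p.2))).trans_isLittleOTVS
    (HasFDerivAtFilter.isLittleOTVS h0)
  have h2 : HasFDerivAtFilter (fun z => L (f z)) (L.comp f') (𝓝 z ×ˢ pure z) := by
    refine ⟨h1.congr_left fun p => ?_⟩
    simp only [map_sub, ContinuousLinearMap.comp_apply]
  exact h2

lemma differentiableAt_clm_comp {G H : Type*} [AddCommGroup G] [Module ℂ G] [TopologicalSpace G]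
    [AddCommGroup H] [Module ℂ H] [TopologicalSpace H] (L : G →L[ℂ] H) {f : V → G}
    {z : V} (h : DifferentiableAt ℂ f z) : DifferentiableAt ℂ (fun z => L (f z)) z := by
  obtain ⟨f', hf'⟩ := h
  exact ⟨_, hasFDerivAt_clm_comp L hf'⟩

lemma differentiableAt_pi_tvs {ι : Type*} {G : ι → Type*} [∀ i, AddCommGroup (G i)]
    [∀ i, Module ℂ (G i)] [∀ i, TopologicalSpace (G i)] [∀ i, ContinuousSMul ℂ (G i)]
    {f : V → ∀ i, G i} {z : V} (h : ∀ i, DifferentiableAt ℂ (fun z => f z i) z) :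
    DifferentiableAt ℂ f z := by
  choose f' hf' using h
  have h2 : HasFDerivAtFilter f (ContinuousLinearMap.pi f') (𝓝 z ×ˢ pure z) := by
    refine ⟨?_⟩
    rw [isLittleOTVS_pi]
    intro i
    have h0 : HasFDerivAtFilter (fun z => f z i) (f' i) (𝓝 z ×ˢ pure z) := hf' i
    exact HasFDerivAtFilter.isLittleOTVS h0
  exact ⟨_, h2⟩

lemma differentiableAt_prodMk_tvs {G H : Type*} [AddCommGroup G] [Module ℂ G] [TopologicalSpace G]
    [ContinuousSMul ℂ G] [AddCommGroup H] [Module ℂ H] [TopologicalSpace H] [ContinuousSMul ℂ H]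
    {f : V → G} {g : V → H} {z : V} (hf : DifferentiableAt ℂ f z) (hg : DifferentiableAt ℂ g z) :
    DifferentiableAt ℂ (fun z => (f z, g z)) z := by
  obtain ⟨f', hf'⟩ := hf
  obtain ⟨g', hg'⟩ := hg
  have h1 : HasFDerivAtFilter f f' (𝓝 z ×ˢ pure z) := hf'
  have h2 : HasFDerivAtFilter g g' (𝓝 z ×ˢ pure z) := hg'
  have h3 : HasFDerivAtFilter (fun z => (f z, g z)) (f'.prod g') (𝓝 z ×ˢ pure z) :=
    ⟨(HasFDerivAtFilter.isLittleOTVS h1).prodMk (HasFDerivAtFilter.isLittleOTVS h2)⟩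
  exact ⟨_, h3⟩

end

end Pool.Agent.Y261.FL
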