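import Mathlib
import Pool.Agent.Y261.FL.Tvs

set_option autoImplicit false

open Set Filter Topology Metric

namespace Pool.Agent.Y261.FL

/-- The data used in the construction. -/
structure Dat (X B : Type) [NormedAddCommGroup X] [NormedSpace ℂ X] [NormedAddCommGroup B]
    [NormedSpace ℂ B] where
  /-- shift -/
  S : X →L[ℂ] X
  /-- unit vectors -/
  e : ℕ → X
  /-- coordinates -/
  cd : ℕ → X →L[ℂ] ℂ
  /-- evaluations -/
  ev : ∀ μ : ℂ, ‖μ‖ ≤ 1 → X →L[ℂ] ℂ
  /-- coordinates of `B` -/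
  co : ℕ → B →L[ℂ] X
  norm_S : ‖S‖ ≤ 1
  S_e : ∀ n, S (e n) = e (n + 1)
  ev_S : ∀ μ h x, ev μ h (S x) = μ * ev μ h x
  ev_e : ∀ μ h n, ev μ h (e n) = μ ^ n
  norm_ev : ∀ μ h, ‖ev μ h‖ ≤ 1
  norm_co : ∀ k x, ‖co k x‖ ≤ ‖x‖
  approx : ∀ K : Set X, IsCompact K → ∀ ε : ℝ, 0 < ε →
    ∃ N : ℕ, ∀ x ∈ K, ‖x - ∑ i ∈ Finset.range N, cd i x • e i‖ ≤ ε
  sum_diff : ∀ (V : Type) [NormedAddCommGroup V] [NormedSpace ℂ V] (z₀ : V) (ρ : ℝ), 0 < ρ →
    ∀ f : ℕ → V → X, (∀ j, DifferentiableOn ℂ (f j) (ball z₀ ρ)) →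
    (∀ j, ∀ z ∈ ball z₀ ρ, ‖f j z‖ ≤ (1 / 2) ^ j) →
    ∃ Φ : V → B, DifferentiableOn ℂ Φ (ball z₀ (ρ / 2)) ∧
      ∀ z ∈ ball z₀ ρ, ∀ j, co j (Φ z) = f j z

section
variable {X B : Type} [NormedAddCommGroup X] [NormedSpace ℂ X] [CompleteSpace X]
  [NormedAddCommGroup B] [NormedSpace ℂ B] (d : Dat X B)

/-- the operator `(v, c) ↦ (1 - l S) v + c e₀` -/
noncomputable def T (l : ℂ) : X × ℂ →L[ℂ] X :=
  (ContinuousLinearMap.fst ℂ X ℂ) - l • (d.S.comp (ContinuousLinearMap.fst ℂ X ℂ)) +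
    (ContinuousLinearMap.snd ℂ X ℂ).smulRight (d.e 0)

lemma T_apply (l : ℂ) (y : X × ℂ) : T d l y = y.1 - l • d.S y.1 + y.2 • d.e 0 := rfl

/-- evaluation at `1 / l` -/
lemma ev_T {l : ℂ} (hl0 : l ≠ 0) (hl : ‖l⁻¹‖ ≤ 1) (y : X × ℂ) : d.ev l⁻¹ hl (T d l y) = y.2 := by
  rw [T_apply, map_add, map_sub, map_smul, map_smul, d.ev_S, d.ev_e]
  simp only [smul_eq_mul, pow_zero, mul_one]
  rw [← mul_assoc, mul_inv_cancel₀ hl0, one_mul, sub_self, zero_add]

/-- the explicit preimages of the unit vectors -/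
noncomputable def pre (l : ℂ) : ℕ → X × ℂ
  | 0 => (0, 1)
  | n + 1 => l⁻¹ • (pre l n - (d.e n, 0))

lemma T_pre {l : ℂ} (hl0 : l ≠ 0) (n : ℕ) : T d l (pre d l n) = d.e n := by
  induction n with
  | zero => simp [pre, T_apply]
  | succ n ih =>
    rw [pre, map_smul, map_sub, ih, T_apply]
    simp only [zero_smul, add_zero]
    rw [d.S_e, sub_sub_cancel, smul_smul, inv_mul_cancel₀ hl0, one_smul]

lemma pre_differentiable {V : Type*} [NormedAddCommGroup V] [NormedSpace ℂ V] {l : V → ℂ} {z : V}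
    (hl : DifferentiableAt ℂ l z) (hl0 : l z ≠ 0) (n : ℕ) :
    DifferentiableAt ℂ (fun z => pre d (l z) n) z := by
  induction n with
  | zero => exact differentiableAt_const _
  | succ n ih =>
    have h1 : DifferentiableAt ℂ (fun z => (l z)⁻¹) z := hl.inv hl0
    exact h1.smul (ih.sub (differentiableAt_const _))

/-- inversion for small `l` -/
lemma isUnit_one_sub {l : ℂ} (hl : ‖l‖ < 1) : IsUnit ((1 : X →L[ℂ] X) - l • d.S) := by
  refine isUnit_one_sub_of_norm_lt_one ?_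
  calc ‖l • d.S‖ ≤ ‖l‖ * ‖d.S‖ := (norm_smul l d.S).le
    _ ≤ ‖l‖ * 1 := by gcongr; exact d.norm_S
    _ < 1 := by linarith

variable (X B) in
/-- the source -/
abbrev EE := B × (ℕ → X × ℂ)

variable (X) in
/-- the target -/
abbrev FF := ℕ → X

/-- the operators -/
noncomputable def uu (l : ℂ) : EE X B →L[ℂ] FF X :=
  ContinuousLinearMap.pi fun j =>
    (d.co j).comp (ContinuousLinearMap.fst ℂ B (ℕ → X × ℂ)) -
      (T d l).comp ((ContinuousLinearMap.proj (R := ℂ) (φ := fun _ : ℕ => X × ℂ) j).comp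
        (ContinuousLinearMap.snd ℂ B (ℕ → X × ℂ)))

lemma uu_apply (l : ℂ) (y : EE X B) (j : ℕ) : uu d l y j = d.co j y.1 - T d l (y.2 j) := rfl

lemma differentiableAt_T {V : Type*} [NormedAddCommGroup V] [NormedSpace ℂ V] {l : V → ℂ} {z : V}
    (hl : DifferentiableAt ℂ l z) (y : X × ℂ) : DifferentiableAt ℂ (fun z => T d (l z) y) z := by
  simp only [T_apply]
  exact ((differentiableAt_const _).sub (hl.smul (differentiableAt_const _))).add
    (differentiableAt_const _)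

lemma uu_differentiable {V : Type*} [NormedAddCommGroup V] [NormedSpace ℂ V] {l : V → ℂ} {z : V}
    (hl : DifferentiableAt ℂ l z) (y : EE X B) : DifferentiableAt ℂ (fun z => uu d (l z) y) z := by
  refine differentiableAt_pi_tvs fun j => ?_
  simp only [uu_apply]
  exact (differentiableAt_const _).sub (differentiableAt_T d hl _)

lemma uu_continuous : Continuous (fun p : ℂ × EE X B => uu d p.1 p.2) := by
  refine continuous_pi fun j => ?_
  simp only [uu_apply, T_apply]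
  have h1 : Continuous (fun p : ℂ × EE X B => p.2.2 j) :=
    (continuous_apply j).comp (continuous_snd.comp continuous_snd)
  have h2 : Continuous (fun p : ℂ × EE X B => (p.2.2 j).1) := continuous_fst.comp h1
  have h3 : Continuous (fun p : ℂ × EE X B => (p.2.2 j).2) := continuous_snd.comp h1
  have h4 : Continuous (fun p : ℂ × EE X B => d.co j p.2.1) :=
    (d.co j).continuous.comp (continuous_fst.comp continuous_snd)
  have h5 : Continuous (fun p : ℂ × EE X B => p.1 • d.S (p.2.2 j).1) :=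
    continuous_fst.smul (d.S.continuous.comp h2)
  have h6 : Continuous (fun p : ℂ × EE X B => (p.2.2 j).2 • d.e 0) := h3.smul continuous_const
  exact h4.sub ((h2.sub h5).add h6)

lemma uu_equi (R : ℝ) {U : Set (FF X)} (hU : U ∈ 𝓝 (0 : FF X)) :
    ∃ O ∈ 𝓝 (0 : EE X B), ∀ l : ℂ, ‖l‖ ≤ R → ∀ y ∈ O, uu d l y ∈ U := by
  obtain ⟨U', hU', hU'o, h0⟩ := mem_nhds_iff.1 hU
  have hpre : IsOpen {p : ℂ × EE X B | uu d p.1 p.2 ∈ U'} := hU'o.preimage (uu_continuous d)
  have hsub : closedBall (0 : ℂ) R ×ˢ {(0 : EE X B)} ⊆ {p : ℂ × EE X B | uu d p.1 p.2 ∈ U'} := by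
    intro p hp
    have hy' : p.2 = 0 := hp.2
    rw [mem_setOf_eq, hy', map_zero]
    exact h0
  obtain ⟨A, O, hA, hB, h1, h2, h3⟩ := generalized_tube_lemma
    (isCompact_closedBall (0 : ℂ) R) (isCompact_singleton (x := (0 : EE X B))) hpre hsub
  have h0O : (0 : EE X B) ∈ O := h2 (mem_singleton _)
  refine ⟨O, hB.mem_nhds h0O, ?_⟩
  intro l hl y hy
  have hlA : l ∈ A := h1 (mem_closedBall_zero_iff.2 hl)
  have h4 : ((l, y) : ℂ × EE X B) ∈ {p : ℂ × EE X B | uu d p.1 p.2 ∈ U'} :=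
    h3 (mk_mem_prod hlA hy)
  rw [mem_setOf_eq] at h4
  exact hU' h4

/-- local surjectivity -/
theorem local_onto {V : Type} [NormedAddCommGroup V] [NormedSpace ℂ V] [ProperSpace V]
    {l : V → ℂ} (hl : Differentiable ℂ l) {z₀ : V} {W₀ : Set V} (hW₀ : IsOpen W₀) (hz₀ : z₀ ∈ W₀)
    {g : V → FF X} (hg : DifferentiableOn ℂ g W₀) :
    ∃ W, IsOpen W ∧ z₀ ∈ W ∧ W ⊆ W₀ ∧ ∃ f : V → EE X B, DifferentiableOn ℂ f W ∧
      ∀ z ∈ W, uu d (l z) (f z) = g z := by
  have hgj : ∀ j, ∀ z ∈ W₀, DifferentiableAt ℂ (fun z => g z j) z := fun j z hz =>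
    differentiableAt_clm_comp (ContinuousLinearMap.proj (R := ℂ) (φ := fun _ : ℕ => X) j)
      ((hg z hz).differentiableAt (hW₀.mem_nhds hz))
  by_cases h : ‖l z₀‖ < 1
  · -- invertible case
    refine ⟨W₀ ∩ {z | ‖l z‖ < 1}, hW₀.inter (isOpen_lt hl.continuous.norm continuous_const),
      ⟨hz₀, h⟩, inter_subset_left, fun z => (0, fun j =>
        (-(Ring.inverse ((1 : X →L[ℂ] X) - l z • d.S) (g z j)), 0)), ?_, ?_⟩
    · intro z hz
      refine DifferentiableAt.differentiableWithinAt ?_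
      refine differentiableAt_prodMk_tvs (differentiableAt_const _) ?_
      refine differentiableAt_pi_tvs fun j => ?_
      have hu := isUnit_one_sub d hz.2
      have h1 : DifferentiableAt ℂ (fun z => (1 : X →L[ℂ] X) - l z • d.S) z :=
        (differentiableAt_const _).sub ((hl z).smul (differentiableAt_const _))
      have h2 : DifferentiableAt ℂ (fun z => Ring.inverse ((1 : X →L[ℂ] X) - l z • d.S)) z :=
        DifferentiableAt.comp (g := Ring.inverse) (f := fun z => (1 : X →L[ℂ] X) - l z • d.S) z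
          (differentiableAt_inverse (𝕜 := ℂ) hu) h1
      exact ((h2.clm_apply (hgj j z hz.1)).neg).prodMk (differentiableAt_const _)
    · intro z hz
      have hu := isUnit_one_sub d hz.2
      funext j
      rw [uu_apply, T_apply]
      simp only [map_zero, zero_smul, add_zero, map_neg, smul_neg]
      have h3 : Ring.inverse ((1 : X →L[ℂ] X) - l z • d.S) (g z j) -
          l z • d.S (Ring.inverse ((1 : X →L[ℂ] X) - l z • d.S) (g z j)) = g z j := by
        have h4 := congrArg (fun A : X →L[ℂ] X => A (g z j)) (Ring.mul_inverse_cancel _ hu)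
        simpa using h4
      rw [show ∀ a b : X, 0 - (-a - -b) = a - b from fun a b => by abel]
      exact h3
  · -- approximation case
    have hl0 : l z₀ ≠ 0 := by
      intro h0
      apply h
      rw [h0]; simp
    have hO : IsOpen (W₀ ∩ {z | l z ≠ 0}) :=
      hW₀.inter (isOpen_ne_fun hl.continuous continuous_const)
    obtain ⟨ρ, hρ, hsub⟩ := nhds_basis_closedBall.mem_iff.1 (hO.mem_nhds ⟨hz₀, hl0⟩)
    have hK : ∀ j, IsCompact ((fun z => g z j) '' closedBall z₀ ρ) := fun j =>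
      (isCompact_closedBall _ _).image_of_continuousOn fun z hz =>
        (hgj j z (hsub hz).1).continuousAt.continuousWithinAt
    choose N hN using fun j : ℕ => d.approx _ (hK j) ((1 / 2) ^ j) (by positivity)
    have hcoord : ∀ i j, ∀ z ∈ W₀, DifferentiableAt ℂ (fun z => d.cd i (g z j)) z :=
      fun i j z hz => (d.cd i).differentiableAt.comp z (hgj j z hz)
    obtain ⟨Φ, hΦ, hΦe⟩ := d.sum_diff V z₀ ρ hρ
      (fun j z => g z j - ∑ i ∈ Finset.range (N j), d.cd i (g z j) • d.e i) (fun j z hz => by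
        have hz' := (hsub (ball_subset_closedBall hz)).1
        refine ((hgj j z hz').sub ?_).differentiableWithinAt
        refine DifferentiableAt.fun_sum fun i _ => ?_
        exact (hcoord i j z hz').smul (differentiableAt_const _))
      (fun j z hz => hN j _ ⟨z, ball_subset_closedBall hz, rfl⟩)
    refine ⟨ball z₀ (ρ / 2), isOpen_ball, mem_ball_self (by linarith), fun z hz =>
      (hsub (ball_subset_closedBall (ball_subset_ball (by linarith) hz))).1,
      fun z => (Φ z, fun j => -∑ i ∈ Finset.range (N j), d.cd i (g z j) • pre d (l z) i), ?_, ?_⟩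
    · intro z hz
      have hz' : z ∈ W₀ ∩ {z | l z ≠ 0} :=
        hsub (ball_subset_closedBall (ball_subset_ball (by linarith) hz))
      refine DifferentiableAt.differentiableWithinAt ?_
      refine differentiableAt_prodMk_tvs (hΦ.differentiableAt (isOpen_ball.mem_nhds hz)) ?_
      refine differentiableAt_pi_tvs fun j => ?_
      refine DifferentiableAt.fun_neg (DifferentiableAt.fun_sum fun i _ => ?_)
      exact (hcoord i j z hz'.1).smul (pre_differentiable d (hl z) hz'.2 i)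
    · intro z hz
      have hz' : z ∈ W₀ ∩ {z | l z ≠ 0} :=
        hsub (ball_subset_closedBall (ball_subset_ball (by linarith) hz))
      funext j
      rw [uu_apply]
      simp only [map_neg, map_sum, map_smul, T_pre d hz'.2]
      rw [hΦe z (ball_subset_ball (by linarith) hz) j]
      simp

/-- no global solution -/
theorem no_global {f : ℂ → EE X B} (hf : DifferentiableOn ℂ f (ball 0 1))
    (hfg : ∀ ζ ∈ ball (0 : ℂ) 1, ∀ j : ℕ, uu d (2 * ζ) (f ζ) j = (j : ℂ) • d.e 1) : False := by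
  have hx : ContinuousOn (fun ζ => (f ζ).1) (sphere (0 : ℂ) (3 / 4)) := by
    intro ζ hζ
    have hζ' : ζ ∈ ball (0 : ℂ) 1 := by
      rw [mem_sphere_zero_iff_norm] at hζ
      rw [mem_ball_zero_iff]; linarith
    exact (differentiableAt_clm_comp (ContinuousLinearMap.fst ℂ B (ℕ → X × ℂ))
      (hf.differentiableAt (isOpen_ball.mem_nhds hζ'))).continuousAt.continuousWithinAt
  obtain ⟨C, hC⟩ := (isCompact_sphere (0 : ℂ) (3 / 4)).exists_bound_of_continuousOn hx
  obtain ⟨j, hj⟩ := exists_nat_gt (C * (3 / 2))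
  let c : ℂ → ℂ := fun ζ => ((f ζ).2 j).2
  have hc : DifferentiableOn ℂ c (ball 0 1) := fun ζ hζ =>
    (differentiableAt_clm_comp ((ContinuousLinearMap.snd ℂ X ℂ).comp
      ((ContinuousLinearMap.proj (R := ℂ) (φ := fun _ : ℕ => X × ℂ) j).comp
        (ContinuousLinearMap.snd ℂ B (ℕ → X × ℂ))))
      (hf.differentiableAt (isOpen_ball.mem_nhds hζ))).differentiableWithinAt
  have hcl : closedBall (0 : ℂ) (3 / 4) ⊆ ball 0 1 := closedBall_subset_ball (by norm_num)
  have hint0 : (∮ ζ in C(0, 3 / 4), c ζ) = 0 :=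
    (hc.mono hcl).diffContOnCl_ball (Subset.refl _) |>.circleIntegral_eq_zero (by norm_num)
  have hbound : ∀ ζ ∈ sphere (0 : ℂ) (3 / 4), ‖c ζ + (j / 2 : ℂ) * (ζ - 0)⁻¹‖ ≤ C := by
    intro ζ hζ
    have hn : ‖ζ‖ = 3 / 4 := by simpa using hζ
    have hζ' : ζ ∈ ball (0 : ℂ) 1 := by rw [mem_ball_zero_iff]; linarith
    have hζ0 : ζ ≠ 0 := by rintro rfl; norm_num at hn
    have h2 : (2 * ζ) ≠ 0 := mul_ne_zero two_ne_zero hζ0
    have hle : ‖(2 * ζ)⁻¹‖ ≤ 1 := by
      rw [norm_inv, norm_mul, hn]; norm_num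
    have h1 := hfg ζ hζ' j
    rw [uu_apply] at h1
    have h3 := congrArg (d.ev (2 * ζ)⁻¹ hle) h1
    rw [map_sub, ev_T d h2 hle, map_smul, d.ev_e] at h3
    have h4 : c ζ + (j / 2 : ℂ) * (ζ - 0)⁻¹ = d.ev (2 * ζ)⁻¹ hle (d.co j (f ζ).1) := by
      rw [sub_eq_iff_eq_add] at h3
      rw [h3, pow_one, sub_zero, smul_eq_mul, mul_inv]
      change c ζ + _ = _ + c ζ
      ring
    rw [h4]
    calc ‖d.ev (2 * ζ)⁻¹ hle (d.co j (f ζ).1)‖ ≤ ‖d.ev (2 * ζ)⁻¹ hle‖ * ‖d.co j (f ζ).1‖ :=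
          (d.ev (2 * ζ)⁻¹ hle).le_opNorm _
      _ ≤ 1 * ‖(f ζ).1‖ := by
          gcongr
          · exact d.norm_ev _ _
          · exact d.norm_co _ _
      _ ≤ C := by rw [one_mul]; exact hC ζ hζ
  have hint : (∮ ζ in C(0, 3 / 4), (c ζ + (j / 2 : ℂ) * (ζ - 0)⁻¹)) =
      (j / 2 : ℂ) * (2 * Real.pi * Complex.I) := by
    rw [circleIntegral.integral_add, hint0, zero_add]
    · have := circleIntegral.integral_const_mul (j / 2 : ℂ) (fun ζ => (ζ - 0)⁻¹) 0 (3 / 4)
      rw [this, circleIntegral.integral_sub_center_inv 0 (by norm_num)]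
    · refine ContinuousOn.circleIntegrable (by norm_num) ?_
      exact hc.continuousOn.mono (sphere_subset_closedBall.trans hcl)
    · refine ContinuousOn.circleIntegrable (by norm_num) ?_
      refine continuousOn_const.mul (ContinuousOn.inv₀ (by fun_prop) ?_)
      intro ζ hζ h0
      have hn : ‖ζ‖ = 3 / 4 := by simpa using hζ
      rw [sub_zero] at h0
      rw [h0] at hn
      norm_num at hn
  have hle := circleIntegral.norm_integral_le_of_norm_le_const (c := 0) (R := 3 / 4)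
    (by norm_num) hbound
  rw [hint] at hle
  have hn2 : ‖(j / 2 : ℂ) * (2 * Real.pi * Complex.I)‖ = j * Real.pi := by
    rw [norm_mul, norm_mul, norm_mul, Complex.norm_I, Complex.norm_real, norm_div]
    simp only [Complex.norm_natCast, Complex.norm_ofNat, mul_one]
    rw [Real.norm_of_nonneg Real.pi_pos.le]
    ring
  rw [hn2] at hle
  have hpi := Real.pi_pos
  have h5 : (j : ℝ) * Real.pi ≤ (C * (3 / 2)) * Real.pi := by linarith
  have h6 := le_of_mul_le_mul_right h5 hpi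
  linarith

end

end Pool.Agent.Y261.FL
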