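import Mathlib

set_option autoImplicit false

open Set Filter Topology Metric

namespace Pool.Agent.Y261.FL

/-- the space `ℓ¹` -/
noncomputable abbrev L1 := lp (fun _ : ℕ => ℂ) 1

lemma L1.summable (x : L1) : Summable fun n => ‖x n‖ := by
  have := (lp.memℓp x).summable (by simp)
  simpa using this

lemma L1.norm_eq (x : L1) : ‖x‖ = ∑' n, ‖x n‖ := by
  have := lp.norm_eq_tsum_rpow (p := 1) (by simp) x
  simpa using this

/-- the underlying function of the shift -/
def shf (x : ℕ → ℂ) : ℕ → ℂ
  | 0 => 0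
  | n + 1 => x n

lemma shf_summable (x : L1) : Summable fun n => ‖shf x n‖ := by
  rw [← summable_nat_add_iff 1]
  exact (L1.summable x)

lemma shf_mem (x : L1) : Memℓp (shf x) 1 := by
  refine memℓp_gen ?_
  simpa using shf_summable x

/-- the shift operator -/
noncomputable def S : L1 →L[ℂ] L1 :=
  LinearMap.mkContinuous
    { toFun := fun x => (⟨shf x, shf_mem x⟩ : L1)
      map_add' := fun x y => by
        ext n
        cases n with
        | zero => simp [shf]
        | succ n => simp [shf]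
      map_smul' := fun c x => by
        ext n
        cases n with
        | zero => simp [shf]
        | succ n => simp [shf] } 1 (fun x => by
      rw [one_mul, L1.norm_eq, L1.norm_eq]
      change ∑' n, ‖shf x n‖ ≤ _
      rw [(shf_summable x).tsum_eq_zero_add]
      simp [shf])

lemma S_zero (x : L1) : S x 0 = 0 := rfl
lemma S_succ (x : L1) (n : ℕ) : S x (n + 1) = x n := rfl

lemma norm_S_le : ‖S‖ ≤ 1 := LinearMap.mkContinuous_norm_le _ zero_le_one _

/-- unit vectors -/
noncomputable def e (n : ℕ) : L1 := lp.single 1 n 1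

lemma e_apply (n m : ℕ) : e n m = if m = n then 1 else 0 := by
  rw [e, lp.single_apply]
  by_cases h : m = n
  · subst h; simp
  · simp [h]

lemma S_e (n : ℕ) : S (e n) = e (n + 1) := by
  ext m
  cases m with
  | zero => rw [S_zero, e_apply]; simp
  | succ m => rw [S_succ, e_apply, e_apply]; simp

lemma single_eq (n : ℕ) (c : ℂ) : (lp.single 1 n c : L1) = c • e n := by
  rw [e, ← lp.single_smul, smul_eq_mul, mul_one]

lemma norm_e (n : ℕ) : ‖e n‖ = 1 := by
  rw [e, lp.norm_single (by norm_num)]; simp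

/-- evaluation of power series -/
noncomputable def ev (μ : ℂ) (hμ : ‖μ‖ ≤ 1) : L1 →L[ℂ] ℂ :=
  LinearMap.mkContinuous
    { toFun := fun x => ∑' n, x n * μ ^ n
      map_add' := fun x y => by
        have h : ∀ x : L1, Summable fun n => x n * μ ^ n := fun x => by
          refine Summable.of_norm_bounded (L1.summable x) fun n => ?_
          rw [norm_mul, norm_pow]
          exact mul_le_of_le_one_right (norm_nonneg _) (pow_le_one₀ (norm_nonneg _) hμ)
        rw [← (h x).tsum_add (h y)]
        refine tsum_congr fun n => ?_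
        rw [lp.coeFn_add, Pi.add_apply, add_mul]
      map_smul' := fun c x => by
        rw [RingHom.id_apply, smul_eq_mul, ← tsum_mul_left]
        refine tsum_congr fun n => ?_
        rw [lp.coeFn_smul, Pi.smul_apply, smul_eq_mul, mul_assoc] } 1 (fun x => by
      rw [one_mul, L1.norm_eq]
      have hb : ∀ n, ‖x n * μ ^ n‖ ≤ ‖x n‖ := fun n => by
        rw [norm_mul, norm_pow]
        exact mul_le_of_le_one_right (norm_nonneg _) (pow_le_one₀ (norm_nonneg _) hμ)
      exact tsum_of_norm_bounded (L1.summable x).hasSum hb)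

lemma ev_apply (μ : ℂ) (hμ : ‖μ‖ ≤ 1) (x : L1) : ev μ hμ x = ∑' n, x n * μ ^ n := rfl

lemma norm_ev_le (μ : ℂ) (hμ : ‖μ‖ ≤ 1) : ‖ev μ hμ‖ ≤ 1 :=
  LinearMap.mkContinuous_norm_le _ zero_le_one _

lemma ev_summable (μ : ℂ) (hμ : ‖μ‖ ≤ 1) (x : L1) : Summable fun n => x n * μ ^ n := by
  refine Summable.of_norm_bounded (L1.summable x) fun n => ?_
  rw [norm_mul, norm_pow]
  exact mul_le_of_le_one_right (norm_nonneg _) (pow_le_one₀ (norm_nonneg _) hμ)

lemma ev_S (μ : ℂ) (hμ : ‖μ‖ ≤ 1) (x : L1) : ev μ hμ (S x) = μ * ev μ hμ x := by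
  rw [ev_apply, ev_apply, (ev_summable μ hμ (S x)).tsum_eq_zero_add, ← tsum_mul_left, S_zero,
    zero_mul, zero_add]
  refine tsum_congr fun n => ?_
  rw [S_succ, pow_succ]; ring

lemma ev_e (μ : ℂ) (hμ : ‖μ‖ ≤ 1) (n : ℕ) : ev μ hμ (e n) = μ ^ n := by
  rw [ev_apply, tsum_eq_single n]
  · rw [e_apply]; simp
  · intro m hm
    rw [e_apply, if_neg hm, zero_mul]

end Pool.Agent.Y261.FL
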