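import Mathlib
import Pool.Agent.Y261.FL.L1

set_option autoImplicit false

open Set Filter Topology Metric

namespace Pool.Agent.Y261.FL

/-- the space `ℓ¹(ℕ, ℓ¹)` -/
noncomputable abbrev L11 := lp (fun _ : ℕ => L1) 1

lemma L11_summable (x : L11) : Summable fun n => ‖x n‖ := by
  have := (lp.memℓp x).summable (by simp)
  simpa using this

/-- uniform approximation by finite sums on compact sets -/
lemma approx {K : Set L1} (hK : IsCompact K) {ε : ℝ} (hε : 0 < ε) :
    ∃ N : ℕ, ∀ x ∈ K, ‖x - ∑ i ∈ Finset.range N, x i • e i‖ ≤ ε := by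
  have hn : ∀ (N : ℕ) (x : L1), ‖x - ∑ i ∈ Finset.range N, x i • e i‖ =
      ‖x‖ - ∑ i ∈ Finset.range N, ‖x i‖ := by
    intro N x
    have h1 := lp.norm_compl_sum_single (p := 1) (by simp) x (Finset.range N)
    simp only [ENNReal.toReal_one, Real.rpow_one] at h1
    rw [← h1]
    simp only [single_eq]
  have hD := Antitone.tendstoUniformlyOn_of_forall_tendsto (F := fun (N : ℕ) (x : L1) =>
      ‖x - ∑ i ∈ Finset.range N, x i • e i‖) (f := fun _ => (0 : ℝ)) hK ?_ ?_ ?_ ?_
  · rw [Metric.tendstoUniformlyOn_iff] at hD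
    obtain ⟨N, hN⟩ := (hD ε hε).exists
    refine ⟨N, fun x hx => ?_⟩
    have := hN x hx
    rw [dist_comm, Real.dist_0_eq_abs, abs_of_nonneg (norm_nonneg _)] at this
    exact this.le
  · intro N
    refine Continuous.continuousOn ?_
    refine (continuous_id.sub (continuous_finsetSum _ fun i _ => ?_)).norm
    exact ((lp.lipschitzWith_one_eval 1 i).continuous).smul continuous_const
  · intro x _
    refine antitone_nat_of_succ_le fun N => ?_
    rw [hn, hn, Finset.sum_range_succ]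
    linarith [norm_nonneg (x N)]
  · exact continuousOn_const
  · intro x _
    have h1 := (lp.hasSum_single (p := 1) (by simp) x).tendsto_sum_nat
    simp only [single_eq] at h1
    have h2 := (tendsto_const_nhds (x := x)).sub h1
    rw [sub_self] at h2
    simpa using h2.norm

/-- series of differentiable functions -/
lemma tsum_diff {V B : Type*} [NormedAddCommGroup V] [NormedSpace ℂ V] [NormedAddCommGroup B]
    [NormedSpace ℂ B] [CompleteSpace B] {z₀ : V} {ρ : ℝ} (hρ : 0 < ρ)
    {G : ℕ → V → B} (hGd : ∀ j, DifferentiableOn ℂ (G j) (ball z₀ ρ))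
    (hb : ∀ j, ∀ z ∈ ball z₀ ρ, ‖G j z‖ ≤ (1 / 2) ^ j) :
    DifferentiableOn ℂ (fun z => ∑' j, G j z) (ball z₀ (ρ / 2)) := by
  have hu : Summable fun j : ℕ => ((1 / 2 : ℝ)) ^ j := summable_geometric_two
  have hGs : ∀ z ∈ ball z₀ ρ, Summable fun j => G j z := by
    intro z hz
    exact Summable.of_norm_bounded hu fun j => hb j z hz
  intro z hz
  have hsub : ∀ z ∈ ball z₀ (ρ / 2), ball z (ρ / 2) ⊆ ball z₀ ρ := by
    intro z hz w hw
    rw [mem_ball] at hz hw ⊢
    linarith [dist_triangle w z z₀]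
  have hsub' : ball z₀ (ρ / 2) ⊆ ball z₀ ρ := ball_subset_ball (by linarith)
  have hu' : Summable fun j : ℕ => 3 * (1 / 2 : ℝ) ^ j / (ρ / 2) :=
    (hu.mul_left 3).div_const _
  letI : NormedSpace ℝ V := NormedSpace.restrictScalars ℝ ℂ V
  have := hasFDerivAt_tsum_of_isPreconnected (𝕜 := ℂ) (f := G) (f' := fun j z => fderiv ℂ (G j) z)
    (x₀ := z) (x := z) (s := ball z₀ (ρ / 2)) hu' isOpen_ball
    (convex_ball z₀ (ρ / 2)).isPreconnected
    (fun j w hw => ((hGd j).differentiableAt (isOpen_ball.mem_nhds (hsub' hw))).hasFDerivAt)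
    (fun j w hw => ?_) hz (hGs z (hsub' hz)) hz
  · exact this.differentiableAt.differentiableWithinAt
  · refine Complex.norm_fderiv_le_div_of_mapsTo_ball ((hGd j).mono (hsub w hw)) ?_ (by linarith)
    intro w' hw'
    have h1 : ‖G j w'‖ ≤ (1 / 2) ^ j := hb j w' (hsub w hw hw')
    have h2 : ‖G j w‖ ≤ (1 / 2) ^ j := hb j w (hsub' hw)
    have h3 : (0 : ℝ) < (1 / 2) ^ j := by positivity
    rw [mem_closedBall, dist_eq_norm]
    calc ‖G j w' - G j w‖ ≤ ‖G j w'‖ + ‖G j w‖ := norm_sub_le _ _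
      _ ≤ 3 * (1 / 2) ^ j := by linarith

end Pool.Agent.Y261.FL
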