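import Mathlib
import Pool.Agent.Y261.FL.Loc

set_option autoImplicit false

open Set Filter Topology Metric

namespace Pool.Agent.Y261.FL

/-- inclusion of the `j`-th summand -/
noncomputable def sg (j : ℕ) : L1 →L[ℂ] L11 := lp.singleContinuousLinearMap ℂ (fun _ : ℕ => L1) 1 j

/-- the `k`-th coordinate -/
noncomputable def co (k : ℕ) : L11 →L[ℂ] L1 := lp.evalCLM ℂ (fun _ : ℕ => L1) 1 k

lemma norm_sg (j : ℕ) (x : L1) : ‖sg j x‖ = ‖x‖ :=
  lp.norm_single (E := fun _ : ℕ => L1) (p := 1) (by norm_num) j x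

lemma co_sg (k j : ℕ) (x : L1) : co k (sg j x) = if j = k then x else 0 := by
  change (lp.single (E := fun _ : ℕ => L1) 1 j x : L11) k = _
  rw [lp.single_apply]
  by_cases h : k = j
  · subst h; simp
  · rw [Pi.single_eq_of_ne h, if_neg (Ne.symm h)]

lemma norm_co_le (k : ℕ) (x : L11) : ‖co k x‖ ≤ ‖x‖ := lp.norm_apply_le_norm (by norm_num) x k

lemma sum_diff {V : Type*} [NormedAddCommGroup V] [NormedSpace ℂ V] {z₀ : V} {ρ : ℝ} (hρ : 0 < ρ)
    {f : ℕ → V → L1} (hf : ∀ j, DifferentiableOn ℂ (f j) (ball z₀ ρ))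
    (hb : ∀ j, ∀ z ∈ ball z₀ ρ, ‖f j z‖ ≤ (1 / 2) ^ j) :
    ∃ Φ : V → L11, DifferentiableOn ℂ Φ (ball z₀ (ρ / 2)) ∧
      ∀ z ∈ ball z₀ ρ, ∀ j, co j (Φ z) = f j z := by
  have hGd : ∀ j, DifferentiableOn ℂ (fun z => sg j (f j z)) (ball z₀ ρ) := fun j =>
    (sg j).differentiable.comp_differentiableOn (hf j)
  have hb' : ∀ j, ∀ z ∈ ball z₀ ρ, ‖sg j (f j z)‖ ≤ (1 / 2) ^ j := by
    intro j z hz
    rw [norm_sg]; exact hb j z hz
  refine ⟨fun z => ∑' j, sg j (f j z), tsum_diff hρ hGd hb', ?_⟩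
  intro z hz k
  have hs : Summable fun j => sg j (f j z) :=
    Summable.of_norm_bounded summable_geometric_two fun j => hb' j z hz
  rw [(co k).map_tsum hs]
  have h3 : (fun j => co k (sg j (f j z))) = fun j => if j = k then f k z else 0 := by
    ext1 j
    rw [co_sg]
    by_cases h : j = k
    · subst h; simp
    · simp [h]
  rw [h3]
  exact tsum_ite_eq k (fun _ => f k z)

end Pool.Agent.Y261.FL
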