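import Mathlib
import Pool.Agent.Y261.FL.Gen
import Pool.Agent.Y261.FL.Loc2

set_option autoImplicit false

open Set Filter Topology Metric

namespace Pool.Agent.Y261.FL

/-- coordinates of `ℓ¹` -/
noncomputable def cdl (i : ℕ) : L1 →L[ℂ] ℂ := lp.evalCLM ℂ (fun _ : ℕ => ℂ) 1 i

lemma cdl_apply (i : ℕ) (x : L1) : cdl i x = x i := rfl

/-- the data for `ℓ¹` -/
noncomputable def dat : Dat L1 L11 where
  S := S
  e := e
  cd := cdl
  ev := ev
  co := co
  norm_S := norm_S_le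
  S_e := S_e
  ev_S := ev_S
  ev_e := ev_e
  norm_ev := norm_ev_le
  norm_co := norm_co_le
  approx := fun _ hK _ hε => approx hK hε
  sum_diff := fun _ _ _ _ _ hρ _ hf hb => sum_diff hρ hf hb

section
variable {X B : Type} [NormedAddCommGroup X] [NormedSpace ℂ X] [CompleteSpace X]
  [NormedAddCommGroup B] [NormedSpace ℂ B]

/-- composition with a curve -/
lemma comp_curve {V : Type} [NormedAddCommGroup V] [NormedSpace ℂ V] {f : V → EE X B}
    {γ : ℂ → V} {ζ : ℂ} (hf : DifferentiableAt ℂ f (γ ζ)) (hγ : DifferentiableAt ℂ γ ζ) :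
    DifferentiableAt ℂ (fun ζ => f (γ ζ)) ζ := by
  have h1 : DifferentiableAt ℂ (fun z => (f z).1) (γ ζ) :=
    differentiableAt_clm_comp (ContinuousLinearMap.fst ℂ B (ℕ → X × ℂ)) hf
  have h2 : ∀ j, DifferentiableAt ℂ (fun z => (f z).2 j) (γ ζ) := fun j =>
    differentiableAt_clm_comp ((ContinuousLinearMap.proj (R := ℂ) (φ := fun _ : ℕ => X × ℂ) j).comp
        (ContinuousLinearMap.snd ℂ B (ℕ → X × ℂ))) hf
  have h3 : DifferentiableAt ℂ (fun ζ => (f (γ ζ)).1) ζ :=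
    DifferentiableAt.comp (g := fun z => (f z).1) (f := γ) ζ h1 hγ
  have h4 : DifferentiableAt ℂ (fun ζ => (f (γ ζ)).2) ζ :=
    differentiableAt_pi_tvs fun j =>
      DifferentiableAt.comp (g := fun z => (f z).2 j) (f := γ) ζ (h2 j) hγ
  exact differentiableAt_prodMk_tvs h3 h4

end

/-- the whole statement on polydisks -/
theorem main_polydisk {n : ℕ} (hn : 0 < n) (a : Fin n → ℂ) (r : Fin n → ℝ) (hr : ∀ j, 0 < r j) :
    ∃ l : (Fin n → ℂ) → ℂ, Differentiable ℂ l ∧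
      (∀ z ∈ {z : Fin n → ℂ | ∀ j, ‖z j - a j‖ < r j}, ‖l z‖ ≤ 2) ∧
      ∀ f : (Fin n → ℂ) → EE L1 L11,
        DifferentiableOn ℂ f {z : Fin n → ℂ | ∀ j, ‖z j - a j‖ < r j} →
        (∀ z ∈ {z : Fin n → ℂ | ∀ j, ‖z j - a j‖ < r j}, ∀ j : ℕ,
          uu dat (l z) (f z) j = (j : ℂ) • dat.e 1) → False := by
  set i₀ : Fin n := ⟨0, hn⟩
  have hr0 : (0 : ℝ) < r i₀ := hr i₀
  have hrc : ((r i₀ : ℝ) : ℂ) ≠ 0 := by exact_mod_cast hr0.ne'
  set P : Set (Fin n → ℂ) := {z : Fin n → ℂ | ∀ j, ‖z j - a j‖ < r j} with hP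
  have hPo : IsOpen P := by
    have : P = ⋂ j, {z : Fin n → ℂ | ‖z j - a j‖ < r j} := by
      ext z; simp [hP]
    rw [this]
    exact isOpen_iInter_of_finite fun j => isOpen_lt (by fun_prop) continuous_const
  refine ⟨fun z => 2 * ((z i₀ - a i₀) / (r i₀ : ℂ)), by fun_prop, ?_, ?_⟩
  · intro z hz
    rw [norm_mul, norm_div, Complex.norm_real, Real.norm_of_nonneg hr0.le, Complex.norm_ofNat]
    have h1 : ‖z i₀ - a i₀‖ / r i₀ ≤ 1 := (div_le_one hr0).2 (hz i₀).le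
    linarith
  · intro f hf hfg
    let γ : ℂ → (Fin n → ℂ) := fun ζ => a + ζ • (Pi.single i₀ (r i₀ : ℂ) : Fin n → ℂ)
    have hγd : Differentiable ℂ γ := by
      intro ζ
      have h1 : DifferentiableAt ℂ (fun ζ : ℂ => ζ • (Pi.single i₀ (r i₀ : ℂ) : Fin n → ℂ)) ζ :=
        DifferentiableAt.fun_smul differentiableAt_fun_id (differentiableAt_const _)
      exact (differentiableAt_const _).add h1
    have hγ : ∀ ζ ∈ ball (0 : ℂ) 1, γ ζ ∈ P := by
      intro ζ hζ j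
      have hζ' : ‖ζ‖ < 1 := by simpa using hζ
      change ‖a j + ζ • (Pi.single i₀ (r i₀ : ℂ) : Fin n → ℂ) j - a j‖ < r j
      by_cases h : j = i₀
      · rw [h, Pi.single_eq_same, add_sub_cancel_left, smul_eq_mul, norm_mul, Complex.norm_real,
          Real.norm_of_nonneg hr0.le]
        nlinarith
      · rw [Pi.single_eq_of_ne h, smul_zero, add_zero, sub_self, norm_zero]
        exact hr j
    have hlγ : ∀ ζ : ℂ, 2 * ((γ ζ i₀ - a i₀) / (r i₀ : ℂ)) = 2 * ζ := by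
      intro ζ
      change 2 * ((a i₀ + ζ • (Pi.single i₀ (r i₀ : ℂ) : Fin n → ℂ) i₀ - a i₀) / (r i₀ : ℂ)) = 2 * ζ
      rw [Pi.single_eq_same, add_sub_cancel_left, smul_eq_mul, mul_div_assoc, div_self hrc, mul_one]
    refine no_global dat (f := fun ζ => f (γ ζ)) ?_ ?_
    · intro ζ hζ
      exact (comp_curve (hf.differentiableAt (hPo.mem_nhds (hγ ζ hζ)))
        (hγd ζ)).differentiableWithinAt
    · intro ζ hζ j
      have h7 := hfg (γ ζ) (hγ ζ hζ) j
      beta_reduce at h7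
      rwa [hlγ] at h7

lemma lcs_FF {X : Type} [NormedAddCommGroup X] [NormedSpace ℂ X] :
    @LocallyConvexSpace ℝ (FF X) _ _ _ (Module.complexToReal (FF X)) _ := by
  have h : @LocallyConvexSpace ℝ (ℕ → X) _ _ _ (Pi.module ℕ (fun _ => X) ℝ) _ := inferInstance
  exact h

lemma lcs_EE {X B : Type} [NormedAddCommGroup X] [NormedSpace ℂ X] [NormedAddCommGroup B]
    [NormedSpace ℂ B] :
    @LocallyConvexSpace ℝ (EE X B) _ _ _ (Module.complexToReal (EE X B)) _ := by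
  have h : @LocallyConvexSpace ℝ (B × (ℕ → X × ℂ)) _ _ _ (Prod.instModule) _ := inferInstance
  exact h

end Pool.Agent.Y261.FL
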